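import Pool.Agent.Q271.TG.Rows

/-!
# Theories with values in abelian groups
-/

set_option autoImplicit false
set_option linter.checkUnivs false

universe u w x

namespace Pool.Agent.Q271.TG

open Q54.CU Q54.CC CategoryTheory Limits AlgebraicGeometry

/-- The data of the cycle theory and of the cohomology theory in the question. `A n s X` stands for
`CH_n(X, s)` (Bloch's higher Chow groups, indexed by dimension, with rational coefficients);
`H n s X` stands for the absolute Hodge homology `H_(2 n + s)(X, ℚ(n))`; `c` is the regulator from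
`CH_n(X, s)` to `H_(2 n + s)(X, ℚ(n))`; `B n X` stands for the Betti homology group
`H_(2 n)(X(ℂ), ℚ(n))` and `cl` is the map to it from `H_(2 n)(X, ℚ(n))`, so that the composite of `c`
and `cl` is the class of a cycle and the kernel of `cl` is the intermediate Jacobian. -/
structure AJData (k : Type u) [Field k] where
  A : ℤ → ℤ → SchO k → Type x
  H : ℤ → ℤ → SchO k → Type w
  B : ℤ → SchO k → Type w
  [grpA : ∀ n s X, AddCommGroup (A n s X)]
  [grpH : ∀ n s X, AddCommGroup (H n s X)]
  [grpB : ∀ n X, AddCommGroup (B n X)]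
  c : ∀ n s X, A n s X →+ H n s X
  cl : ∀ n X, H n 0 X →+ B n X

attribute [instance] AJData.grpA AJData.grpH AJData.grpB

variable {k : Type u} [Field k]

/-- Maps of the localization sequences of both theories for `Z`, `X`, `U`. -/
structure LocSeq (D : AJData.{u, w, x} k) (Z X U : SchO k) where
  α : ∀ n s, D.A n s Z →+ D.A n s X
  β : ∀ n s, D.A n s X →+ D.A n s U
  δ : ∀ n s, D.A n (s + 1) U →+ D.A n s Z
  a : ∀ n s, D.H n s Z →+ D.H n s X
  b : ∀ n s, D.H n s X →+ D.H n s U
  d : ∀ n s, D.H n (s + 1) U →+ D.H n s Z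

/-- The localization sequences are exact. -/
def LocSeq.IsExact {D : AJData.{u, w, x} k} {Z X U : SchO k} (l : LocSeq D Z X U) : Prop :=
  ∀ n s, (Ex (l.α n s) (l.β n s) ∧ Ex (l.β n (s + 1)) (l.δ n s) ∧ Ex (l.δ n s) (l.α n s)) ∧
    Ex (l.a n s) (l.b n s) ∧ Ex (l.b n (s + 1)) (l.d n s) ∧ Ex (l.d n s) (l.a n s)

/-- The regulators are compatible with the maps of the two localization sequences. -/
structure LocSeq.IsComp {D : AJData.{u, w, x} k} {Z X U : SchO k} (l : LocSeq D Z X U) :
    Prop where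
  ca : ∀ n s z, vl (D.c n s X) (vl (l.α n s) z) = vl (l.a n s) (vl (D.c n s Z) z)
  cb : ∀ n s x, vl (D.c n s U) (vl (l.β n s) x) = vl (l.b n s) (vl (D.c n s X) x)
  cd : ∀ n s y, vl (D.c n s Z) (vl (l.δ n s) y) = vl (l.d n s) (vl (D.c n (s + 1) U) y)

/-- The groups `A n s X` and `A n' s' Y` are isomorphic, the groups `H n s X` and `H n' s' Y` are
isomorphic, and these isomorphisms are compatible with the regulators. In particular the kernels
of the regulators are isomorphic. -/
def SameReg (D : AJData.{u, w, x} k) (n s : ℤ) (X : SchO k) (n' s' : ℤ) (Y : SchO k) : Prop :=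
  ∃ (a : D.A n s X ≃+ D.A n' s' Y) (e : D.H n s X ≃+ D.H n' s' Y),
    ∀ x, vl (D.c n' s' Y) (vl a.toAddMonoidHom x) = vl e.toAddMonoidHom (vl (D.c n s X) x)

/-- The formal properties of higher Chow groups and of absolute Hodge homology: localization
sequences, homotopy invariance for affine bundles, `CH_n(Spec k, s) = 0` for `n + s < 0`, and
`H_i(Spec k, ℚ(n)) = 0` for `i ≠ 0, -1`. -/
structure IsAJTheory (D : AJData.{u, w, x} k) : Prop where
  localization : ∀ {Z X U : SchO k} (i : Z ⟶ X) (j : U ⟶ X), IsVar X → IsDecomp i j →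
    ∃ l : LocSeq D Z X U, l.IsExact ∧ l.IsComp
  homotopy : ∀ {E B : SchO k} (r : ℕ) (p : E ⟶ B), IsVar E → IsVar B → IsAffineBundle r p.left →
    ∀ n s, SameReg D n s B (n + r) s E
  chow_pt : ∀ n s, n + s < 0 → Subsingleton (D.A n s (pt k))
  hom_pt : ∀ n s, 2 * n + s ≠ 0 → 2 * n + s ≠ -1 → Subsingleton (D.H n s (pt k))

/-- The same data with discrete topologies. -/
def AJData.top (D : AJData.{u, w, x} k) : TopData.{u, w, x} k where
  A := D.A
  H := D.H
  grpA := D.grpA
  grpH := D.grpH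
  topH := fun _ _ _ => ⊥
  c := D.c

variable {D : AJData.{u, w, x} k}

lemma iso_of_same {n s : ℤ} {X : SchO k} {n' s' : ℤ} {Y : SchO k} (h : SameReg D n s X n' s' Y) :
    Iso D.top n s X n' s' Y := by
  obtain ⟨a, e, h⟩ := h
  refine ⟨a, e, ⟨?_, ?_⟩, h⟩
  · exact continuous_bot
  · exact continuous_bot

lemma same_of_iso {n s : ℤ} {X : SchO k} {n' s' : ℤ} {Y : SchO k} (h : Iso D.top n s X n' s' Y) :
    SameReg D n s X n' s' Y := by
  obtain ⟨a, e, -, h⟩ := h
  exact ⟨a, e, h⟩

theorem top_isTheory (hD : IsAJTheory D) : IsTheory D.top := by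
  refine ⟨?_, ?_, hD.chow_pt, hD.hom_pt⟩
  · intro Z X U i j hX hd
    obtain ⟨l, h1, h2⟩ := hD.localization i j hX hd
    refine ⟨⟨l.α, l.β, l.δ⟩, ⟨l.a, l.b, l.d⟩, fun n s => (h1 n s).1, fun n s => ?_, ⟨h2.ca, h2.cb,
      h2.cd⟩⟩
    refine ⟨(h1 n s).2.1, (h1 n s).2.2.1, (h1 n s).2.2.2, fun z1 z0 => ?_⟩
    have h3 : Function.Exact (l.b n (s + 1)) (l.d n s) := (h1 n s).2.2.1
    have h4 : Function.Exact (l.d n s) (l.a n s) := (h1 n s).2.2.2
    have z1 : Subsingleton (D.H n (s + 1) X) := z1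
    have z0 : Subsingleton (D.H n s X) := z0
    have hs : Function.Surjective (l.d n s) := fun z => (h4 z).1 (Subsingleton.elim _ _)
    have hi : Function.Injective (l.d n s) := by
      rw [injective_iff_map_eq_zero]
      intro y hy
      obtain ⟨z, hz⟩ := (h3 y).1 hy
      rw [← hz, Subsingleton.elim z 0]
      exact map_zero (l.b n (s + 1))
    exact ⟨continuous_bot, fun O _ => @isOpen_discrete _ ⊥ ⟨rfl⟩ _, ⟨hi, hs⟩⟩
  · intro E B r p hE hB hp n s
    exact iso_of_same (hD.homotopy r p hE hB hp n s)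

/-- Injectivity of the regulators depends only on the regulators. -/
lemma SameReg.inj {n s : ℤ} {X : SchO k} {n' s' : ℤ} {Y : SchO k} (h : SameReg D n s X n' s' Y) :
    Function.Injective (D.c n s X) ↔ Function.Injective (D.c n' s' Y) :=
  (iso_of_same h).inj

end Pool.Agent.Q271.TG
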