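import Pool.Agent.Q54.CC.Row
import Pool.Agent.Q54.CU.Smo

/-!
# Higher Chow groups and homology theories with values in topological abelian groups
-/

set_option autoImplicit false
set_option linter.checkUnivs false

universe u w x

namespace Pool.Agent.Q271.TG

open Q54.CU Q54.CC CategoryTheory Limits AlgebraicGeometry

/-- The data of two theories for the schemes over `k`. `A n s X` stands for `CH_n(X, s)` (Bloch's
higher Chow groups, indexed by dimension, with rational coefficients); `H n s X` is a topological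
abelian group that stands for the absolute Hodge homology `H_(2 n + s)(X, ℚ(n))`; and `c` is the
regulator from `CH_n(X, s)` to `H_(2 n + s)(X, ℚ(n))`. -/
structure TopData (k : Type u) [Field k] where
  A : ℤ → ℤ → SchO k → Type x
  H : ℤ → ℤ → SchO k → Type w
  [grpA : ∀ n s X, AddCommGroup (A n s X)]
  [grpH : ∀ n s X, AddCommGroup (H n s X)]
  [topH : ∀ n s X, TopologicalSpace (H n s X)]
  c : ∀ n s X, A n s X →+ H n s X

attribute [instance] TopData.grpA TopData.grpH TopData.topH

/-- The value of a homomorphism. -/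
abbrev vl {A B : Type*} [AddCommGroup A] [AddCommGroup B] (f : A →+ B) (x : A) : B := f x

/-- Exactness of homomorphisms of abelian groups. -/
abbrev Ex {A B C : Type*} [AddCommGroup A] [AddCommGroup B] [AddCommGroup C] (f : A →+ B)
    (g : B →+ C) : Prop :=
  Function.Exact f g

/-- The homomorphism is a homeomorphism. -/
abbrev IsHomeo {A B : Type*} [AddCommGroup A] [AddCommGroup B] [TopologicalSpace A]
    [TopologicalSpace B] (f : A →+ B) : Prop :=
  IsHomeomorph f

/-- The isomorphism is a homeomorphism. -/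
abbrev IsBicont {A B : Type*} [AddCommGroup A] [AddCommGroup B] [TopologicalSpace A]
    [TopologicalSpace B] (e : A ≃+ B) : Prop :=
  Continuous e ∧ Continuous e.symm

variable {k : Type u} [Field k]

/-- Maps of a localization sequence `A_n(Z, s) → A_n(X, s) → A_n(U, s) → A_n(Z, s - 1)`. -/
structure CycSeq (D : TopData.{u, w, x} k) (Z X U : SchO k) where
  α : ∀ n s, D.A n s Z →+ D.A n s X
  β : ∀ n s, D.A n s X →+ D.A n s U
  δ : ∀ n s, D.A n (s + 1) U →+ D.A n s Z

/-- The sequence is exact. -/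
def CycSeq.IsExact {D : TopData.{u, w, x} k} {Z X U : SchO k} (c : CycSeq D Z X U) : Prop :=
  ∀ n s, Ex (c.α n s) (c.β n s) ∧ Ex (c.β n (s + 1)) (c.δ n s) ∧ Ex (c.δ n s) (c.α n s)

/-- Maps of a localization sequence `H_n(Z, s) → H_n(X, s) → H_n(U, s) → H_n(Z, s - 1)`. -/
structure TopSeq (D : TopData.{u, w, x} k) (Z X U : SchO k) where
  a : ∀ n s, D.H n s Z →+ D.H n s X
  b : ∀ n s, D.H n s X →+ D.H n s U
  d : ∀ n s, D.H n (s + 1) U →+ D.H n s Z

/-- The sequence is exact, and the boundary map from `U` to `Z` is a homeomorphism if the two groups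
of `X` next to it vanish. -/
def TopSeq.IsExact {D : TopData.{u, w, x} k} {Z X U : SchO k} (h : TopSeq D Z X U) : Prop :=
  ∀ n s, Ex (h.a n s) (h.b n s) ∧ Ex (h.b n (s + 1)) (h.d n s) ∧ Ex (h.d n s) (h.a n s) ∧
    (Subsingleton (D.H n (s + 1) X) → Subsingleton (D.H n s X) → IsHomeo (h.d n s))

/-- The regulators are compatible with the maps of the two localization sequences. -/
structure IsComp {D : TopData.{u, w, x} k} {Z X U : SchO k} (c : CycSeq D Z X U)
    (h : TopSeq D Z X U) : Prop where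
  ca : ∀ n s z, vl (D.c n s X) (vl (c.α n s) z) = vl (h.a n s) (vl (D.c n s Z) z)
  cb : ∀ n s x, vl (D.c n s U) (vl (c.β n s) x) = vl (h.b n s) (vl (D.c n s X) x)
  cd : ∀ n s y, vl (D.c n s Z) (vl (c.δ n s) y) = vl (h.d n s) (vl (D.c n (s + 1) U) y)

/-- The localization sequences of both theories for a closed subscheme `Z` of `X` with complement
`U`, and their compatibility with the regulators. -/
def HasLoc (D : TopData.{u, w, x} k) (Z X U : SchO k) : Prop :=
  ∃ (c : CycSeq D Z X U) (h : TopSeq D Z X U), c.IsExact ∧ h.IsExact ∧ IsComp c h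

/-- The groups `A n s X` and `A n' s' Y` are isomorphic, the topological groups `H n s X` and
`H n' s' Y` are isomorphic, and these isomorphisms are compatible with the regulators. -/
def Iso (D : TopData.{u, w, x} k) (n s : ℤ) (X : SchO k) (n' s' : ℤ) (Y : SchO k) : Prop :=
  ∃ (a : D.A n s X ≃+ D.A n' s' Y) (e : D.H n s X ≃+ D.H n' s' Y), IsBicont e ∧
    ∀ x, vl (D.c n' s' Y) (vl a.toAddMonoidHom x) = vl e.toAddMonoidHom (vl (D.c n s X) x)

/-- The formal properties of higher Chow groups and of absolute Hodge homology: localization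
sequences, homotopy invariance for affine bundles, `CH_n(Spec k, s) = 0` for `n + s < 0`, and
`H_i(Spec k, ℚ(n)) = 0` for `i ≠ 0, -1`. -/
structure IsTheory (D : TopData.{u, w, x} k) : Prop where
  localization : ∀ {Z X U : SchO k} (i : Z ⟶ X) (j : U ⟶ X), IsVar X → IsDecomp i j →
    HasLoc D Z X U
  homotopy : ∀ {E B : SchO k} (r : ℕ) (p : E ⟶ B), IsVar E → IsVar B → IsAffineBundle r p.left →
    ∀ n s, Iso D n s B (n + r) s E
  chow_pt : ∀ n s, n + s < 0 → Subsingleton (D.A n s (pt k))
  hom_pt : ∀ n s, 2 * n + s ≠ 0 → 2 * n + s ≠ -1 → Subsingleton (D.H n s (pt k))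

variable {D : TopData.{u, w, x} k}

lemma Iso.symm {n s n' s' : ℤ} {X Y : SchO k} (h : Iso D n s X n' s' Y) :
    Iso D n' s' Y n s X := by
  obtain ⟨a, e, ⟨h1, h2⟩, h⟩ := h
  refine ⟨a.symm, e.symm, ⟨h2, h1⟩, fun y => ?_⟩
  have h3 : D.c n' s' Y (a (a.symm y)) = e (D.c n s X (a.symm y)) := h (a.symm y)
  rw [AddEquiv.apply_symm_apply] at h3
  show D.c n s X (a.symm y) = e.symm (D.c n' s' Y y)
  rw [h3, AddEquiv.symm_apply_apply]

lemma Iso.trans {n s n' s' n'' s'' : ℤ} {X Y Z : SchO k} (h : Iso D n s X n' s' Y)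
    (h' : Iso D n' s' Y n'' s'' Z) : Iso D n s X n'' s'' Z := by
  obtain ⟨a, e, ⟨h1, h2⟩, h⟩ := h
  obtain ⟨a', e', ⟨h1', h2'⟩, h'⟩ := h'
  refine ⟨a.trans a', e.trans e', ⟨h1'.comp h1, h2.comp h2'⟩, fun x => ?_⟩
  have h3 : D.c n' s' Y (a x) = e (D.c n s X x) := h x
  have h4 : D.c n'' s'' Z (a' (a x)) = e' (D.c n' s' Y (a x)) := h' (a x)
  show D.c n'' s'' Z (a' (a x)) = e' (e (D.c n s X x))
  rw [h4, h3]

/-- The localization sequence of a scheme whose groups vanish. -/
theorem loc_iso (hD : IsTheory D) {Z X U : SchO k} (i : Z ⟶ X) (j : U ⟶ X) (hX : IsVar X)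
    (hd : IsDecomp i j) (n s : ℤ) (a1 : Subsingleton (D.A n (s + 1) X))
    (a0 : Subsingleton (D.A n s X)) (z1 : Subsingleton (D.H n (s + 1) X))
    (z0 : Subsingleton (D.H n s X)) : Iso D n (s + 1) U n s Z := by
  obtain ⟨⟨α, β, δ⟩, ⟨a, b, d⟩, h1, h2, ⟨-, -, h5⟩⟩ := hD.localization i j hX hd
  have h5 : ∀ y : D.A n (s + 1) U, D.c n s Z (δ n s y) = d n s (D.c n (s + 1) U y) :=
    fun y => h5 n s y
  have hsurj : Function.Surjective (δ n s) := fun z => ((h1 n s).2.2 z).1 (Subsingleton.elim _ _)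
  have hinj : Function.Injective (δ n s) := by
    rw [injective_iff_map_eq_zero]
    intro y hy
    obtain ⟨z, hz⟩ := ((h1 n s).2.1 y).1 hy
    rw [← hz, Subsingleton.elim z 0]
    exact map_zero (β n (s + 1))
  have hhom : IsHomeomorph (d n s) := (h2 n s).2.2.2 z1 z0
  refine ⟨AddEquiv.ofBijective (δ n s) ⟨hinj, hsurj⟩, AddEquiv.ofBijective (d n s) hhom.bijective,
    ⟨hhom.continuous, ?_⟩, h5⟩
  exact (AddEquiv.ofBijective (d n s) hhom.bijective).toEquiv.continuous_symm_iff.2 hhom.isOpenMap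

/-- A scheme with an affine bundle over the point. -/
lemma chow_space (hD : IsTheory D) {X : SchO k} (hX : IsVar X) {M : ℕ} (p : X ⟶ pt k)
    (hp : IsAffineBundle M p.left) {n s : ℤ} (h : n + s < M) : Subsingleton (D.A n s X) := by
  obtain ⟨a, -, -⟩ := hD.homotopy M p hX isVar_pt hp (n - M) s
  have h1 := hD.chow_pt (n - M) s (by omega)
  have h2 := a.symm.injective.subsingleton
  rwa [sub_add_cancel] at h2

lemma hom_space (hD : IsTheory D) {X : SchO k} (hX : IsVar X) {M : ℕ} (p : X ⟶ pt k)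
    (hp : IsAffineBundle M p.left) {n s : ℤ} (h : 2 * n + s ≠ 2 * M) (h' : 2 * n + s + 1 ≠ 2 * M) :
    Subsingleton (D.H n s X) := by
  obtain ⟨-, e, -⟩ := hD.homotopy M p hX isVar_pt hp (n - M) s
  have h1 := hD.hom_pt (n - M) s (by omega) (by omega)
  have h2 := e.symm.injective.subsingleton
  rwa [sub_add_cancel] at h2

/-- **The hypersurface `∑ λ_j q_j(x) = 1` and the closed subscheme `Z` given by the equations
`q_j(x) = 0`.** -/
theorem smooth_iso (hD : IsTheory D) {M r : ℕ} (q : Fin (r + 1) → MvPolynomial (Fin M) k)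
    {Z : SchO k} (i : Z ⟶ affO k M) (hd : IsDecomp i (cplInc q)) {n s : ℤ} (h : n + s + 1 < M)
    (h1 : 2 * n + s + 2 < 2 * M) : Iso D (n + r) (s + 1) (hypO q 1) n s Z :=
  (hD.homotopy r (hypO_to q) (isVar_hypO q 1) (isVar_cplO q) (hypO_to_bundle q) n (s + 1)).symm.trans
    (loc_iso hD i (cplInc q) isVar_affO hd n s
      (chow_space hD isVar_affO (affTo k M) (affStr_bundle k M) (by omega))
      (chow_space hD isVar_affO (affTo k M) (affStr_bundle k M) (by omega))
      (hom_space hD isVar_affO (affTo k M) (affStr_bundle k M) (by omega) (by omega))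
      (hom_space hD isVar_affO (affTo k M) (affStr_bundle k M) (by omega) (by omega)))

/-- Density of the image of the regulator. -/
lemma Iso.dense {n s n' s' : ℤ} {X Y : SchO k} (h : Iso D n s X n' s' Y) :
    DenseRange (D.c n s X) ↔ DenseRange (D.c n' s' Y) := by
  have key : ∀ {n s n' s' : ℤ} {X Y : SchO k}, Iso D n s X n' s' Y → DenseRange (D.c n s X) →
      DenseRange (D.c n' s' Y) := by
    rintro n s n' s' X Y ⟨a, e, ⟨h1, h2⟩, h⟩ hd
    have h3 : DenseRange (e ∘ D.c n s X) := e.surjective.denseRange.comp hd h1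
    have h4 : (e ∘ D.c n s X : D.A n s X → D.H n' s' Y) = D.c n' s' Y ∘ a :=
      funext fun x => (h x).symm
    rw [h4] at h3
    exact h3.mono (Set.range_comp_subset_range _ _)
  exact ⟨key h, key h.symm⟩

/-- Injectivity of the regulator. -/
lemma Iso.inj {n s n' s' : ℤ} {X Y : SchO k} (h : Iso D n s X n' s' Y) :
    Function.Injective (D.c n s X) ↔ Function.Injective (D.c n' s' Y) := by
  have key : ∀ {n s n' s' : ℤ} {X Y : SchO k}, Iso D n s X n' s' Y →
      Function.Injective (D.c n s X) → Function.Injective (D.c n' s' Y) := by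
    rintro n s n' s' X Y ⟨a, e, ⟨h1, h2⟩, h⟩ hd y y' hy
    obtain ⟨x, rfl⟩ := a.surjective y
    obtain ⟨x', rfl⟩ := a.surjective y'
    have h3 : ∀ x, D.c n' s' Y (a x) = e (D.c n s X x) := h
    rw [h3, h3] at hy
    rw [hd (e.injective hy)]
  exact ⟨key h, key h.symm⟩

end Pool.Agent.Q271.TG
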