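import Pool.Agent.Q271.TG.Defs

/-!
# Classes of varieties and smooth affine cubic hypersurfaces
-/

set_option autoImplicit false
set_option linter.checkUnivs false

universe u w x

namespace Pool.Agent.Q271.TG

open Q54.CU Q54.CC CategoryTheory Limits AlgebraicGeometry

variable {k : Type u} [Field k]

/-- The closed subset `q_0 = … = q_r = 0` of the affine space has a structure of closed subscheme
with the property `P`. -/
def LocusIn (P : SchO k → Prop) {M r : ℕ} (q : Fin (r + 1) → MvPolynomial (Fin M) k) : Prop :=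
  ∃ (V : SchO k) (i : V ⟶ affO k M), IsDecomp i (cplInc q) ∧ P V

/-- The property `Q` for the groups `CH^j(E, s)` with `j > s` of the hypersurfaces
`E : ∑ λ_j q_j(x) = 1` such that `V(q)` has the property `P`. -/
def CubRow (P : SchO k → Prop) (Q : ℤ → ℤ → SchO k → Prop) (s : ℤ) : Prop :=
  ∀ (M r : ℕ) (q : Fin (r + 1) → MvPolynomial (Fin M) k), (∀ j, (q j).totalDegree ≤ 2) →
    LocusIn P q → ∀ j : ℤ, s < j → Q (M + r - j) s (hypO q 1)

/-- The property `Q` for the groups `CH_n(X, s)` of the varieties `X` with the property `P` over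
which there is an affine bundle with affine total space. -/
def TorRow (P : SchO k → Prop) (Q : ℤ → ℤ → SchO k → Prop) (s : ℤ) : Prop :=
  ∀ X : SchO k, IsVar X → P X → HasAffineTorsor X → ∀ n : ℤ, Q n s X

/-- The property `Q` for the groups `CH_n(X, s)` of the affine varieties `X` with the property
`P`. -/
def AffRow (P : SchO k → Prop) (Q : ℤ → ℤ → SchO k → Prop) (s : ℤ) : Prop :=
  ∀ X : SchO k, IsVar X → P X → IsAffine X.left → ∀ n : ℤ, Q n s X

lemma isVar_locus {M : ℕ} {V : SchO k} (i : V ⟶ affO k M) (hi : IsClosedImmersion i.left) :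
    IsVar V ∧ IsAffine V.left := by
  have ha : IsAffine V.left := by
    have h1 : IsAffineHom i.left := inferInstance
    have h2 : IsAffine (affO k M).left := (inferInstance : IsAffine (Aff k M))
    exact isAffine_of_isAffineHom i.left
  exact ⟨.of_affine (isFT_affO.of_closed i hi) ha, ha⟩

lemma smooth_bundle {E B : SchO k} (r : ℕ) (p : E ⟶ B) (hp : IsAffineBundle r p.left)
    (h : Smooth B.hom) : Smooth E.hom := by
  have h1 : Smooth p.left := hp.smooth
  rw [← Over.w p]
  exact MorphismProperty.comp_mem @Smooth.{u} _ _ h1 h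

variable {P : SchO k → Prop} {Q : ℤ → ℤ → SchO k → Prop} {D : TopData.{u, w, x} k}
  (hD : IsTheory D)
  (hP : ∀ {E B : SchO k} (r : ℕ) (p : E ⟶ B), IsAffineBundle r p.left → P B → P E)
  (hQ : ∀ n s X n' s' Y, Iso D n s X n' s' Y → (Q n s X ↔ Q n' s' Y))

include hD hP hQ in
theorem torRow_iff (s : ℤ) : TorRow P Q s ↔ AffRow P Q s := by
  constructor
  · exact fun h X hX hp ha n => h X hX hp (hasAffineTorsor_of_affine hX ha) n
  · rintro h X hX hpX ⟨T, r, p, hT, ha, hp⟩ n
    exact (hQ _ _ _ _ _ _ (hD.homotopy r p hT hX hp n s)).2 (h T hT (hP r p hp hpX) ha _)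

include hD hQ in
theorem cubRow_iff_aff {s : ℤ} (hs : 0 ≤ s) : CubRow P Q (s + 1) ↔ AffRow P Q s := by
  constructor
  · intro h X hX hpX ha n
    obtain ⟨M, r, q, i, hM, hq, hd⟩ := exists_decomp X hX.ft ha (n + s + 2).toNat
    have h1 : n + s + 1 < M := by omega
    by_cases h3 : 2 * n + s + 2 < 2 * M
    · have h2 := smooth_iso hD q i hd h1 h3
      have h3 := h M r q hq ⟨X, i, hd, hpX⟩ (M - n) (by omega)
      rw [show (M : ℤ) + r - (M - n) = n + r by omega] at h3
      exact (hQ _ _ _ _ _ _ h2).1 h3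
    · omega
  · intro h M r q _ hl j hj
    obtain ⟨V, i, hd, hPV⟩ := hl
    obtain ⟨hV, ha⟩ := isVar_locus i hd.closed
    have h2 := smooth_iso hD q i hd (n := M - j) (s := s) (by omega) (by omega)
    have h3 := (hQ _ _ _ _ _ _ h2).2 (h V hV hPV ha (M - j))
    rwa [show (M : ℤ) - j + r = M + r - j by omega] at h3

include hD hP hQ in
theorem cubRow_iff {s : ℤ} (hs : 0 ≤ s) : CubRow P Q (s + 1) ↔ TorRow P Q s := by
  rw [torRow_iff hD hP hQ, cubRow_iff_aff hD hQ hs]

/-- The hypersurfaces are smooth affine varieties. -/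
lemma hyp_smooth {M r : ℕ} (q : Fin (r + 1) → MvPolynomial (Fin M) k) :
    IsVar (hypO q 1) ∧ Smooth (hypO q 1).hom ∧ IsAffine (hypO q 1).left :=
  ⟨isVar_hypO q 1, smooth_hyp q, (inferInstance : IsAffine (HypSch q (1 : k)))⟩


lemma cubRow_of_smooth {s : ℤ} (h : AffRow (fun X => Smooth X.hom) Q s) : CubRow P Q s :=
  fun _ _ q _ _ _ _ => h (hypO q 1) (hyp_smooth q).1 (hyp_smooth q).2.1 (hyp_smooth q).2.2 _

include hD hQ in
/-- Going down in the row of smooth varieties. -/
theorem affRow_down {s : ℤ} (hs : 0 ≤ s) (m : ℕ)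
    (h : CubRow (fun X => Smooth X.hom) Q (s + m + 1)) : AffRow (fun X => Smooth X.hom) Q s := by
  induction m with
  | zero =>
    refine (cubRow_iff_aff hD hQ hs).1 ?_
    rwa [Nat.cast_zero, add_zero] at h
  | succ m ih =>
    refine ih (cubRow_of_smooth ((cubRow_iff_aff hD hQ (by omega)).1 ?_))
    rw [show s + m + 1 + 1 = s + ((m + 1 : ℕ) : ℤ) + 1 by push_cast; ring]
    exact h

lemma cubRow_mono {s : ℤ} {P' : SchO k → Prop} (hPP : ∀ X, P X → P' X) (h : CubRow P' Q s) :
    CubRow P Q s := by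
  intro M r q hq hl j hj
  obtain ⟨V, i, hd, hV⟩ := hl
  exact h M r q hq ⟨V, i, hd, hPP V hV⟩ j hj

include hD hQ in
/-- **All rows.** -/
theorem rows_tfae : List.TFAE
    [∀ s : ℤ, 0 ≤ s → TorRow (fun X => Smooth X.hom) Q s,
      ∀ s : ℤ, 0 ≤ s → TorRow (fun _ => True) Q s,
      ∀ s : ℤ, 0 < s → CubRow (fun _ => True) Q s,
      ∀ s₀ : ℤ, ∃ s : ℤ, s₀ < s ∧ CubRow (fun X => Smooth X.hom) Q s] := by
  have hP1 : ∀ {E B : SchO k} (r : ℕ) (p : E ⟶ B), IsAffineBundle r p.left →
      Smooth B.hom → Smooth E.hom := fun r p hp h => smooth_bundle r p hp h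
  have hP2 : ∀ {E B : SchO k} (r : ℕ) (p : E ⟶ B), IsAffineBundle r p.left →
      True → True := fun _ _ _ h => h
  tfae_have 1 → 3 := fun h s hs => cubRow_of_smooth ((torRow_iff hD hP1 hQ s).1 (h s hs.le))
  tfae_have 3 → 2 := by
    intro h s hs
    exact (cubRow_iff hD (P := fun _ => True) hP2 hQ hs).1 (h (s + 1) (by omega))
  tfae_have 2 → 1 := fun h s hs X hX _ hT n => h s hs X hX trivial hT n
  tfae_have 3 → 4 := fun h s₀ => ⟨max s₀ 0 + 1, by omega, cubRow_mono (fun _ _ => trivial)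
    (h _ (by omega))⟩
  tfae_have 4 → 1 := by
    intro h s hs
    obtain ⟨t, ht, h1⟩ := h (s + 1)
    rw [torRow_iff hD hP1 hQ]
    refine affRow_down hD hQ hs (t - s - 1).toNat ?_
    rwa [show s + ((t - s - 1).toNat : ℤ) + 1 = t by omega]
  tfae_finish

end Pool.Agent.Q271.TG
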